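import Pool.Agent.H365.TF.Stm

/-!
# Task RNG: the group ring of `BS(1,2)` and a subring
-/

set_option autoImplicit false

namespace Pool.Agent.H365.TF

namespace RNGN

open MonoidAlgebra

variable {H : Type} [Group H]

/-- The elements with support in the monoid `M`. -/
theorem supp_closure (M : Submonoid H) (T : Set (MonoidAlgebra ℤ H))
    (hT : ∀ x ∈ T, ∀ h, h ∉ M → x.coeff h = 0) (x : MonoidAlgebra ℤ H)
    (hx : x ∈ Subring.closure T) : ∀ h, h ∉ M → x.coeff h = 0 := by
  classical
  induction hx using Subring.closure_induction with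
  | mem x hx => exact hT x hx
  | zero =>
    intro h _
    rfl
  | one =>
    intro h hh
    by_contra hc
    have h1 : h ∈ (1 : MonoidAlgebra ℤ H).coeff.support := Finsupp.mem_support_iff.2 hc
    have h2 := support_coeff_one_subset h1
    rw [Finset.mem_one] at h2
    apply hh
    rw [h2]
    exact M.one_mem
  | add x y _ _ hx hy =>
    intro h hh
    rw [coeff_add, Finsupp.add_apply, hx h hh, hy h hh, add_zero]
  | neg x _ hx =>
    intro h hh
    rw [coeff_neg, Finsupp.neg_apply, hx h hh, neg_zero]
  | mul x y _ _ hx hy =>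
    intro h hh
    by_contra hc
    have h1 : h ∈ (x * y).coeff.support := Finsupp.mem_support_iff.2 hc
    have h2 := support_coeff_mul_subset x y h1
    rw [Finset.mem_mul] at h2
    obtain ⟨u, hu, v, hv, huv⟩ := h2
    apply hh
    rw [← huv]
    apply M.mul_mem
    · by_contra hc2
      exact (Finsupp.mem_support_iff.1 hu) (hx u hc2)
    · by_contra hc2
      exact (Finsupp.mem_support_iff.1 hv) (hy v hc2)

/-- The closure of a set in its closure. -/
theorem closure_top {A : Type} [Ring A] (T : Set A) :
    Subring.closure ((Subtype.val : Subring.closure T → A) ⁻¹' T) = ⊤ := by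
  rw [eq_top_iff]
  rintro ⟨x, hx⟩ -
  induction hx using Subring.closure_induction with
  | mem x hx => exact Subring.subset_closure hx
  | zero => exact Subring.zero_mem _
  | one => exact Subring.one_mem _
  | add x y hx hy h1 h2 => exact Subring.add_mem _ h1 h2
  | neg x hx h1 => exact Subring.neg_mem _ h1
  | mul x y hx hy h1 h2 => exact Subring.mul_mem _ h1 h2

end RNGN

open RNGN in
/-- **RNG.** -/
theorem t_RNG : S_RNG := by
  classical
  intro H _ a f haf htop hf hk
  set T : Set (MonoidAlgebra ℤ H) :=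
    {MonoidAlgebra.of ℤ H a, MonoidAlgebra.of ℤ H a⁻¹, MonoidAlgebra.of ℤ H f} with hT
  set M : Submonoid H := Submonoid.closure ({a, a⁻¹, f} : Set H) with hM
  have hTfin : T.Finite := by
    rw [hT]
    exact Set.toFinite _
  -- the monoid is in the ring
  have hMR : ∀ m ∈ M, MonoidAlgebra.of ℤ H m ∈ Subring.closure T := by
    intro m hm
    induction hm using Submonoid.closure_induction with
    | mem x hx =>
      apply Subring.subset_closure
      rcases hx with rfl | rfl | rfl
      · exact Or.inl rfl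
      · exact Or.inr (Or.inl rfl)
      · exact Or.inr (Or.inr rfl)
    | one => rw [map_one]; exact Subring.one_mem _
    | mul x y _ _ hx hy => rw [map_mul]; exact Subring.mul_mem _ hx hy
  have hfM : f ∈ M := Submonoid.subset_closure (Or.inr (Or.inr rfl))
  have hsupp : ∀ x ∈ T, ∀ h, h ∉ M → x.coeff h = 0 := by
    have h1 : ∀ m ∈ M, ∀ h, h ∉ M → (MonoidAlgebra.of ℤ H m).coeff h = 0 := by
      intro m hm h hh
      rw [MonoidAlgebra.of_apply, MonoidAlgebra.coeff_single, Finsupp.single_apply, if_neg]
      intro e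
      apply hh
      rw [← e]
      exact hm
    intro x hx
    rcases hx with rfl | rfl | rfl
    · exact h1 a (Submonoid.subset_closure (Or.inl rfl))
    · exact h1 a⁻¹ (Submonoid.subset_closure (Or.inr (Or.inl rfl)))
    · exact h1 f hfM
  refine ⟨Subring.closure T, inferInstance, (Subring.closure T).subtype,
    Subtype.val_injective, ?_, ?_, ?_, ?_, ?_⟩
  · refine ⟨(hTfin.preimage Subtype.val_injective.injOn :
      ((Subtype.val : Subring.closure T → MonoidAlgebra ℤ H) ⁻¹' T).Finite).toFinset, ?_⟩
    rw [Set.Finite.coe_toFinset]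
    exact closure_top T
  · refine ⟨{MonoidAlgebra.of ℤ H a, MonoidAlgebra.of ℤ H a⁻¹, MonoidAlgebra.of ℤ H f,
      MonoidAlgebra.of ℤ H f⁻¹}, ?_⟩
    set T' : Finset (MonoidAlgebra ℤ H) := {MonoidAlgebra.of ℤ H a, MonoidAlgebra.of ℤ H a⁻¹,
      MonoidAlgebra.of ℤ H f, MonoidAlgebra.of ℤ H f⁻¹} with hT'
    have hmem : ∀ x, x = MonoidAlgebra.of ℤ H a ∨ x = MonoidAlgebra.of ℤ H a⁻¹ ∨
        x = MonoidAlgebra.of ℤ H f ∨ x = MonoidAlgebra.of ℤ H f⁻¹ →
        x ∈ Subring.closure (T' : Set (MonoidAlgebra ℤ H)) := by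
      intro x hx
      apply Subring.subset_closure
      rw [hT']
      simpa using hx
    have hof : ∀ h : H, MonoidAlgebra.of ℤ H h ∈ Subring.closure (T' : Set (MonoidAlgebra ℤ H)) ∧
        MonoidAlgebra.of ℤ H h⁻¹ ∈ Subring.closure (T' : Set (MonoidAlgebra ℤ H)) := by
      intro h
      have hh : h ∈ Subgroup.closure ({a, f} : Set H) := by rw [htop]; exact Subgroup.mem_top h
      induction hh using Subgroup.closure_induction with
      | mem x hx =>
        rcases hx with rfl | rfl
        · exact ⟨hmem _ (Or.inl rfl), hmem _ (Or.inr (Or.inl rfl))⟩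
        · exact ⟨hmem _ (Or.inr (Or.inr (Or.inl rfl))), hmem _ (Or.inr (Or.inr (Or.inr rfl)))⟩
      | one =>
        rw [inv_one, map_one]
        exact ⟨Subring.one_mem _, Subring.one_mem _⟩
      | mul x y _ _ hx hy =>
        rw [mul_inv_rev, map_mul, map_mul]
        exact ⟨Subring.mul_mem _ hx.1 hy.1, Subring.mul_mem _ hy.2 hx.2⟩
      | inv x _ hx =>
        rw [inv_inv]
        exact ⟨hx.2, hx.1⟩
    rw [eq_top_iff]
    intro x _
    induction x using MonoidAlgebra.induction_on with
    | of m => exact (hof m).1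
    | add x y hx hy => exact Subring.add_mem _ (hx trivial) (hy trivial)
    | smul r x hx => exact zsmul_mem (hx trivial) r
  · exact ⟨⟨MonoidAlgebra.of ℤ H f, hMR f hfM⟩, rfl⟩
  · rintro ⟨b, hb⟩ hc
    have h1 : b = MonoidAlgebra.of ℤ H f⁻¹ := hc
    have h2 := supp_closure M T hsupp b hb f⁻¹ hf
    rw [h1, MonoidAlgebra.of_apply, MonoidAlgebra.coeff_single, Finsupp.single_eq_same] at h2
    exact one_ne_zero h2
  · intro x
    have key : ∃ k : ℕ, ∀ k', k ≤ k' →
        x * MonoidAlgebra.of ℤ H f ^ k' ∈ Subring.closure T := by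
      induction x using MonoidAlgebra.induction_on with
      | of m =>
        obtain ⟨k, hkm⟩ := hk m
        refine ⟨k, fun k' hk' => ?_⟩
        rw [← map_pow, ← map_mul]
        apply hMR
        have e : m * f ^ k' = (m * f ^ k) * f ^ (k' - k) := by
          rw [mul_assoc, ← pow_add]
          congr 2
          omega
        rw [e]
        exact M.mul_mem hkm (M.pow_mem hfM _)
      | add x y hx hy =>
        obtain ⟨k1, h1⟩ := hx
        obtain ⟨k2, h2⟩ := hy
        refine ⟨max k1 k2, fun k' hk' => ?_⟩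
        rw [add_mul]
        exact Subring.add_mem _ (h1 k' ((le_max_left _ _).trans hk'))
          (h2 k' ((le_max_right _ _).trans hk'))
      | smul r x hx =>
        obtain ⟨k, h1⟩ := hx
        refine ⟨k, fun k' hk' => ?_⟩
        rw [smul_mul_assoc]
        exact zsmul_mem (h1 k' hk') r
    obtain ⟨k, hk'⟩ := key
    exact ⟨k, ⟨_, hk' k le_rfl⟩, rfl⟩

end Pool.Agent.H365.TF
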